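import Pool.Agent.V11139.CDBlock

/-!
# The chromatic distance between two graphs is at most two

All containments are as induced subgraphs.
-/

set_option autoImplicit false

namespace Pool.Agent.Results.MP_37c966_co.DistanceTwo

open Pool.Agent.Y12.CR Pool.Agent.V11139.CD

universe u v w

/-- `c` is a colouring of the vertices of `H` in which no colour class induces a subgraph of `H`
containing `F` as an induced subgraph. -/
def IsFreeColoring {W : Type u} {U : Type v} (H : SimpleGraph W) (F : SimpleGraph U) {k : ℕ}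
    (c : W → Fin k) : Prop :=
  ∀ i : Fin k, ¬ F.IsIndContained (H.induce {v | c v = i})

/-- `χ(H : -F) = n`: the least number of colours in a colouring as above is `n`. -/
def FreeChromaticNumberEq {W : Type u} {U : Type v} (H : SimpleGraph W) (F : SimpleGraph U)
    (n : ℕ) : Prop :=
  IsLeast {k : ℕ | ∃ c : W → Fin k, IsFreeColoring H F c} n

/-- Chromatic relatedness `F ≍ G`: for every `n ≥ 1` some finite graph `H` satisfies
`χ(H : -F) = χ(H : -G) = n`. -/
def Related {U : Type u} {V : Type v} (F : SimpleGraph U) (G : SimpleGraph V) : Prop :=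
  ∀ n : ℕ, 1 ≤ n → ∃ (W : Type) (_ : Finite W) (H : SimpleGraph W),
    FreeChromaticNumberEq H F n ∧ FreeChromaticNumberEq H G n

/-- A finite graph with at least two vertices (up to isomorphism: its vertices are `0, …, n-1`). -/
structure FinGraph where
  /-- the number of vertices -/
  n : ℕ
  two_le : 2 ≤ n
  /-- the graph -/
  graph : SimpleGraph (Fin n)

/-- There are graphs `R 0, …, R k` with `F ≅ R 0 ≍ R 1 ≍ ⋯ ≍ R k ≅ G`. -/
def Chain {U : Type u} {V : Type v} (F : SimpleGraph U) (G : SimpleGraph V) (k : ℕ) : Prop :=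
  ∃ R : ℕ → FinGraph, Nonempty (F ≃g (R 0).graph) ∧ Nonempty ((R k).graph ≃g G) ∧
    ∀ i < k, Related (R i).graph (R (i + 1)).graph

/-- The chromatic distance `d_c(F, G)`: the least `k` for which there is a chain of length `k`
(`⊤` if there is none). -/
noncomputable def chromaticDistance {U : Type u} {V : Type v} (F : SimpleGraph U)
    (G : SimpleGraph V) : ℕ∞ :=
  sInf {x : ℕ∞ | ∃ k : ℕ, x = k ∧ Chain F G k}

theorem isFree_iff {W : Type u} {U : Type v} (H : SimpleGraph W) (F : SimpleGraph U) {k : ℕ}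
    (c : W → Fin k) : IsFreeColoring H F c ↔ ∀ (i : Fin k) (f : F ↪g H), ¬ ∀ a, c (f a) = i := by
  constructor
  · intro h i f hf
    exact h i ⟨⟨⟨fun a => ⟨f a, hf a⟩, fun a b hab => f.injective (congrArg Subtype.val hab)⟩,
      fun {a b} => f.map_adj_iff⟩⟩
  · rintro h i ⟨f⟩
    exact h i ((SimpleGraph.Embedding.induce _).comp f) fun a => (f a).2

theorem related_symm {U : Type u} {V : Type v} {F : SimpleGraph U} {G : SimpleGraph V}
    (h : Related F G) : Related G F := by
  intro n hn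
  obtain ⟨W, hW, H, h1, h2⟩ := h n hn
  exact ⟨W, hW, H, h2, h1⟩

theorem emb_compl {U : Type u} {V : Type v} {F : SimpleGraph U} {G : SimpleGraph V} (f : F ↪g G) :
    ∃ g : Fᶜ ↪g Gᶜ, ∀ a, g a = f a := by
  refine ⟨⟨⟨f, f.injective⟩, ?_⟩, fun a => rfl⟩
  intro a b
  change Gᶜ.Adj (f a) (f b) ↔ Fᶜ.Adj a b
  rw [SimpleGraph.compl_adj, SimpleGraph.compl_adj, f.map_adj_iff, f.injective.ne_iff]

theorem free_compl {W : Type u} {U : Type v} {H : SimpleGraph W} {F : SimpleGraph U} {k : ℕ}
    {c : W → Fin k} (h : IsFreeColoring H F c) : IsFreeColoring Hᶜ Fᶜ c := by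
  rw [isFree_iff] at h ⊢
  intro i f hf
  obtain ⟨g, hg⟩ := emb_compl f
  rw [compl_compl, compl_compl] at g
  obtain ⟨g', hg'⟩ : ∃ g' : F ↪g H, ∀ a, g' a = f a := by
    refine ⟨⟨⟨f, f.injective⟩, ?_⟩, fun a => rfl⟩
    intro a b
    change H.Adj (f a) (f b) ↔ F.Adj a b
    by_cases hab : a = b
    · subst hab
      simp
    · have h1 := f.map_adj_iff (v := a) (w := b)
      rw [SimpleGraph.compl_adj, SimpleGraph.compl_adj, f.injective.ne_iff] at h1
      have h2 : f a ≠ f b := fun h => hab (f.injective h)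
      tauto
  exact h i g' fun a => by rw [hg' a]; exact hf a

theorem number_compl {W : Type u} {U : Type v} {H : SimpleGraph W} {F : SimpleGraph U} {n : ℕ}
    (h : FreeChromaticNumberEq H F n) : FreeChromaticNumberEq Hᶜ Fᶜ n := by
  have h1 : {k : ℕ | ∃ c : W → Fin k, IsFreeColoring Hᶜ Fᶜ c} =
      {k : ℕ | ∃ c : W → Fin k, IsFreeColoring H F c} := by
    ext k
    constructor
    · rintro ⟨c, hc⟩
      have := free_compl hc
      rw [compl_compl, compl_compl] at this
      exact ⟨c, this⟩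
    · rintro ⟨c, hc⟩
      exact ⟨c, free_compl hc⟩
  unfold FreeChromaticNumberEq
  rw [h1]
  exact h

theorem related_compl {U : Type u} {V : Type v} {F : SimpleGraph U} {G : SimpleGraph V}
    (h : Related F G) : Related Fᶜ Gᶜ := by
  intro n hn
  obtain ⟨W, hW, H, h1, h2⟩ := h n hn
  exact ⟨W, hW, Hᶜ, number_compl h1, number_compl h2⟩

theorem number_iso {W : Type u} {U : Type v} {V : Type w} {H : SimpleGraph W}
    {F : SimpleGraph U} {G : SimpleGraph V} (e : F ≃g G) {n : ℕ}
    (h : FreeChromaticNumberEq H F n) : FreeChromaticNumberEq H G n := by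
  have h1 : {k : ℕ | ∃ c : W → Fin k, IsFreeColoring H G c} =
      {k : ℕ | ∃ c : W → Fin k, IsFreeColoring H F c} := by
    ext k
    constructor
    · rintro ⟨c, hc⟩
      exact ⟨c, fun i ⟨f⟩ => hc i ⟨f.comp e.symm.toEmbedding⟩⟩
    · rintro ⟨c, hc⟩
      exact ⟨c, fun i ⟨f⟩ => hc i ⟨f.comp e.toEmbedding⟩⟩
  unfold FreeChromaticNumberEq
  rw [h1]
  exact h

/-- one vertex is enough for `n = 1` -/
theorem number_one {U : Type u} [Nontrivial U] (F : SimpleGraph U) :
    FreeChromaticNumberEq (⊥ : SimpleGraph Unit) F 1 := by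
  constructor
  · refine ⟨fun _ => 0, fun i ⟨f⟩ => ?_⟩
    obtain ⟨x, y, hxy⟩ := exists_pair_ne U
    exact hxy (f.injective (Subtype.ext rfl))
  · rintro k ⟨c, -⟩
    exact Nat.one_le_iff_ne_zero.2 fun h => by
      subst h
      exact (c ()).elim0

section Fam

variable {ι : Type} [Finite ι] {U : ι → Type} [∀ t, Finite (U t)] {F : ∀ t, SimpleGraph (U t)}

/-- Two graphs that do not belong to the class of graphs without the finitely many graphs `F t`
(connected without cut vertex), but split into two members of this class, are related. -/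
theorem related_of_fam (hF : ∀ t, NoCut (F t)) {V V' : Type} [Finite V] [Finite V'] [Nontrivial V]
    [Nontrivial V'] (G : SimpleGraph V) (G' : SimpleGraph V') (hG : ∃ t, Nonempty (F t ↪g G))
    (hG' : ∃ t, Nonempty (F t ↪g G')) (κ : Set V) (κ' : Set V')
    (hκ : ∀ (t : ι) (f : F t ↪g G), (∃ a, f a ∉ κ) ∧ ∃ a, f a ∈ κ)
    (hκ' : ∀ (t : ι) (f : F t ↪g G'), (∃ a, f a ∉ κ') ∧ ∃ a, f a ∈ κ') : Related G G' := by
  intro n hn
  rcases hn.eq_or_lt with rfl | hn
  · exact ⟨Unit, inferInstance, ⊥, number_one G, number_one G'⟩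
  · -- both conditions for the disjoint union
    have key : ∀ (t : ι) (f : F t ↪g G ⊕g G'),
        (∃ g : F t ↪g G, ∀ a, f a = Sum.inl (g a)) ∨ ∃ g : F t ↪g G', ∀ a, f a = Sum.inr (g a) := by
      intro t f
      have hc := const_of_pre (hF t).pre (fun a => (f a).isLeft) (by
        intro a b hab
        have h : (G ⊕g G').Adj (f a) (f b) := f.map_adj_iff.2 hab
        rcases hfa : f a with y | y <;> rcases hfb : f b with y' | y' <;> rw [hfa, hfb] at h
        · rfl
        · simp at h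
        · simp at h
        · rfl)
      obtain ⟨x, -, -⟩ := (hF t).edge
      rcases hx : f x with y | y
      · left
        have hall : ∀ a, ∃ b, f a = Sum.inl b := by
          intro a
          have h := hc a x
          rw [hx] at h
          exact Sum.isLeft_iff.1 h
        choose g hg using hall
        refine ⟨⟨⟨g, ?_⟩, ?_⟩, hg⟩
        · intro a b hab
          apply f.injective
          rw [hg a, hg b, hab]
        · intro a b
          change G.Adj (g a) (g b) ↔ (F t).Adj a b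
          rw [← f.map_adj_iff, hg a, hg b]
          exact SimpleGraph.sum_adj_inl.symm
      · right
        have hall : ∀ a, ∃ b, f a = Sum.inr b := by
          intro a
          have h := hc a x
          rw [hx] at h
          rcases ha : f a with b | b
          · rw [ha] at h
            simp at h
          · exact ⟨b, rfl⟩
        choose g hg using hall
        refine ⟨⟨⟨g, ?_⟩, ?_⟩, hg⟩
        · intro a b hab
          apply f.injective
          rw [hg a, hg b, hab]
        · intro a b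
          change G'.Adj (g a) (g b) ↔ (F t).Adj a b
          rw [← f.map_adj_iff, hg a, hg b]
          exact SimpleGraph.sum_adj_inr.symm
    let κD : Set (V ⊕ V') := {x | Sum.elim (fun v => v ∈ κ) (fun v => v ∈ κ') x}
    have hκD : ∀ (t : ι) (f : F t ↪g G ⊕g G'), (∃ a, f a ∉ κD) ∧ ∃ a, f a ∈ κD := by
      intro t f
      rcases key t f with ⟨g, hg⟩ | ⟨g, hg⟩
      · obtain ⟨⟨a, ha⟩, b, hb⟩ := hκ t g
        refine ⟨⟨a, ?_⟩, b, ?_⟩
        · rw [hg a]; exact ha
        · rw [hg b]; exact hb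
      · obtain ⟨⟨a, ha⟩, b, hb⟩ := hκ' t g
        refine ⟨⟨a, ?_⟩, b, ?_⟩
        · rw [hg a]; exact ha
        · rw [hg b]; exact hb
    obtain ⟨W, hW, H, ⟨p, hp⟩, hH⟩ := coreFam hF (G ⊕g G') κD (fun t f => (hκD t f).1)
      (fun t f => (hκD t f).2) (show 2 ≤ n from hn)
    refine ⟨W, hW, H, ⟨⟨p, ?_⟩, ?_⟩, ⟨⟨p, ?_⟩, ?_⟩⟩
    · rw [isFree_iff]
      intro i f hf
      obtain ⟨t, ⟨g⟩⟩ := hG
      exact hp t i (f.comp g) fun a => hf (g a)
    · rintro k ⟨c, hc⟩
      rw [isFree_iff] at hc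
      by_contra hlt
      obtain ⟨i, f, hf⟩ := hH k c (by simpa using hlt)
      exact hc i (f.comp SimpleGraph.Embedding.sumInl) fun a => hf _
    · rw [isFree_iff]
      intro i f hf
      obtain ⟨t, ⟨g⟩⟩ := hG'
      exact hp t i (f.comp g) fun a => hf (g a)
    · rintro k ⟨c, hc⟩
      rw [isFree_iff] at hc
      by_contra hlt
      obtain ⟨i, f, hf⟩ := hH k c (by simpa using hlt)
      exact hc i (f.comp SimpleGraph.Embedding.sumInr) fun a => hf _

end Fam

/-- The same for two forbidden graphs. -/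
theorem related_of_two {U₁ U₂ V V' : Type} [Finite U₁] [Finite U₂] [Finite V] [Finite V']
    [Nontrivial V] [Nontrivial V'] {F₁ : SimpleGraph U₁} {F₂ : SimpleGraph U₂} (h₁ : NoCut F₁)
    (h₂ : NoCut F₂) (G : SimpleGraph V) (G' : SimpleGraph V')
    (hG : Nonempty (F₁ ↪g G) ∨ Nonempty (F₂ ↪g G))
    (hG' : Nonempty (F₁ ↪g G') ∨ Nonempty (F₂ ↪g G')) (κ : Set V) (κ' : Set V')
    (hκ₁ : ∀ f : F₁ ↪g G, (∃ a, f a ∉ κ) ∧ ∃ a, f a ∈ κ)
    (hκ₂ : ∀ f : F₂ ↪g G, (∃ a, f a ∉ κ) ∧ ∃ a, f a ∈ κ)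
    (hκ'₁ : ∀ f : F₁ ↪g G', (∃ a, f a ∉ κ') ∧ ∃ a, f a ∈ κ')
    (hκ'₂ : ∀ f : F₂ ↪g G', (∃ a, f a ∉ κ') ∧ ∃ a, f a ∈ κ') : Related G G' := by
  let U : Bool → Type := fun t => match t with
    | true => U₁
    | false => U₂
  let F : ∀ t, SimpleGraph (U t) := fun t => match t with
    | true => F₁
    | false => F₂
  have hfin : ∀ t, Finite (U t) := fun t => match t with
    | true => inferInstanceAs (Finite U₁)
    | false => inferInstanceAs (Finite U₂)
  refine related_of_fam (ι := Bool) (U := U) (F := F) ?_ G G' ?_ ?_ κ κ' ?_ ?_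
  · rintro (_ | _)
    · exact h₂
    · exact h₁
  · rcases hG with h | h
    · exact ⟨true, h⟩
    · exact ⟨false, h⟩
  · rcases hG' with h | h
    · exact ⟨true, h⟩
    · exact ⟨false, h⟩
  · rintro (_ | _)
    · exact hκ₂
    · exact hκ₁
  · rintro (_ | _)
    · exact hκ'₂
    · exact hκ'₁

theorem noCut_bip {s : ℕ} (hs : 2 ≤ s) : NoCut (completeBipartiteGraph (Fin s) (Fin s)) := by
  apply TC.noCut
  have h01 : (⟨0, by omega⟩ : Fin s) ≠ ⟨1, by omega⟩ := by simp
  refine ⟨⟨Sum.inl ⟨0, by omega⟩, Sum.inr ⟨0, by omega⟩, by simp⟩, ?_⟩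
  rintro X Y ⟨x, hx⟩ ⟨y, hy⟩ hXY hadj
  rcases x with i | i <;> rcases y with j | j
  · refine ⟨Sum.inr ⟨0, by omega⟩, Sum.inr ⟨1, by omega⟩, by simp, ?_, ?_, ?_, ?_⟩
    · exact fun h => hadj _ h _ hy (by simp)
    · exact fun h => hadj _ hx _ h (by simp)
    · exact fun h => hadj _ h _ hy (by simp)
    · exact fun h => hadj _ hx _ h (by simp)
  · exact (hadj _ hx _ hy (by simp)).elim
  · exact (hadj _ hx _ hy (by simp)).elim
  · refine ⟨Sum.inl ⟨0, by omega⟩, Sum.inl ⟨1, by omega⟩, by simp, ?_, ?_, ?_, ?_⟩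
    · exact fun h => hadj _ h _ hy (by simp)
    · exact fun h => hadj _ hx _ h (by simp)
    · exact fun h => hadj _ h _ hy (by simp)
    · exact fun h => hadj _ hx _ h (by simp)

theorem noCut_top {m : ℕ} (hm : 2 ≤ m) : NoCut (⊤ : SimpleGraph (Fin m)) := by
  apply TC.noCut
  refine ⟨Fin.nontrivial_iff_two_le.2 hm, ?_⟩
  rintro X Y ⟨x, hx⟩ ⟨y, hy⟩ hXY hadj
  refine (hadj x hx y hy ?_).elim
  rw [SimpleGraph.top_adj]
  rintro rfl
  exact hXY _ hx hy

theorem bip_split {U : Type} {F : SimpleGraph U} (hF : NoCut F) {s : ℕ}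
    (f : F ↪g completeBipartiteGraph (Fin s) (Fin s)) :
    (∃ a, f a ∉ {x : Fin s ⊕ Fin s | x.isLeft = true}) ∧
      ∃ a, f a ∈ {x : Fin s ⊕ Fin s | x.isLeft = true} := by
  obtain ⟨x, y, hxy⟩ := hF.edge
  have h : (completeBipartiteGraph (Fin s) (Fin s)).Adj (f x) (f y) := f.map_adj_iff.2 hxy
  rcases hx : f x with a | a <;> rcases hy : f y with b | b <;> rw [hx, hy] at h
  · simp at h
  · exact ⟨⟨y, by rw [hy]; simp⟩, x, by rw [hx]; simp⟩
  · exact ⟨⟨x, by rw [hx]; simp⟩, y, by rw [hy]; simp⟩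
  · simp at h

/-- A connected graph is related to all large balanced complete bipartite graphs. -/
theorem conn_bip {V : Type} [Finite V] [Nontrivial V] (F : SimpleGraph V) (hF : F.Connected)
    (s : ℕ) (hs : Nat.card V < s) : Related F (completeBipartiteGraph (Fin s) (Fin s)) := by
  obtain ⟨S, hS, κ, hκ⟩ := exists_block F hF
  have hV : 1 < Nat.card V := Finite.one_lt_card
  have hs2 : 2 ≤ s := by omega
  have hnt : Nontrivial (Fin s ⊕ Fin s) := ⟨Sum.inl ⟨0, by omega⟩, Sum.inr ⟨0, by omega⟩, by simp⟩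
  refine related_of_two hS (noCut_bip hs2) F _ (Or.inl ⟨SimpleGraph.Embedding.induce S⟩)
    (Or.inr ⟨SimpleGraph.Embedding.refl⟩) κ {x | x.isLeft = true} hκ ?_ (bip_split hS)
    (bip_split (noCut_bip hs2))
  intro f
  exfalso
  have h := Nat.card_le_card_of_injective f f.injective
  rw [Nat.card_eq_fintype_card (α := Fin s ⊕ Fin s), Fintype.card_sum, Fintype.card_fin] at h
  omega

/-- The disjoint union of a complete graph and an edgeless graph. -/
abbrev KN (m q : ℕ) : SimpleGraph (Fin m ⊕ Fin q) := (⊤ : SimpleGraph (Fin m)) ⊕g ⊥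

theorem emb_KN {U : Type} {C : SimpleGraph U} (hC : NoCut C) {m q : ℕ} (f : C ↪g KN m q) :
    (∀ a b, a ≠ b → C.Adj a b) ∧ ∃ g : U → Fin m, Function.Injective g ∧
      ∀ a, f a = Sum.inl (g a) := by
  have hall : ∀ a, ∃ b, f a = Sum.inl b := by
    intro a
    obtain ⟨b, hab⟩ := hC.nbr a
    have h : (KN m q).Adj (f a) (f b) := f.map_adj_iff.2 hab
    rcases ha : f a with x | x
    · exact ⟨x, rfl⟩
    · rcases hb : f b with y | y <;> rw [ha, hb] at h <;> simp at h
  choose g hg using hall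
  have hginj : Function.Injective g := by
    intro a b hab
    apply f.injective
    rw [hg a, hg b, hab]
  refine ⟨?_, g, hginj, hg⟩
  intro a b hab
  rw [← f.map_adj_iff, hg a, hg b, SimpleGraph.sum_adj_inl, SimpleGraph.top_adj]
  exact fun h => hab (hginj h)

theorem KN_split {U : Type} [Finite U] {C : SimpleGraph U} (hC : NoCut C) {m q : ℕ} (hm : 2 ≤ m)
    (hcard : (∀ a b, a ≠ b → C.Adj a b) → Nat.card U = m) (f : C ↪g KN m q) :
    (∃ a, f a ∉ ({Sum.inl ⟨0, by omega⟩} : Set (Fin m ⊕ Fin q))) ∧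
      ∃ a, f a ∈ ({Sum.inl ⟨0, by omega⟩} : Set (Fin m ⊕ Fin q)) := by
  obtain ⟨x, y, hxy⟩ := hC.edge
  constructor
  · by_contra hcon
    push Not at hcon
    have h1 := hcon x
    have h2 := hcon y
    rw [Set.mem_singleton_iff] at h1 h2
    exact hxy.ne (f.injective (h1.trans h2.symm))
  · obtain ⟨h1, g, hg, hfg⟩ := emb_KN hC f
    have h2 : Function.Bijective g := by
      refine (Nat.bijective_iff_injective_and_card g).2 ⟨hg, ?_⟩
      rw [hcard h1, Nat.card_eq_fintype_card, Fintype.card_fin]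
    obtain ⟨a, ha⟩ := h2.2 ⟨0, by omega⟩
    exact ⟨a, by rw [hfg a, ha]; rfl⟩

/-- Every connected graph is related to `K_m + N_q` for some `m ≥ 2` and all `q`. -/
theorem conn_KN {V : Type} [Finite V] [Nontrivial V] (F : SimpleGraph V) (hF : F.Connected) :
    ∃ m : ℕ, 2 ≤ m ∧ ∀ q : ℕ, Related F (KN m q) := by
  obtain ⟨S, hS, κ, hκ⟩ := exists_block F hF
  have hV : 1 < Nat.card V := Finite.one_lt_card
  have hSF : Nonempty (F.induce S ↪g F) := ⟨SimpleGraph.Embedding.induce S⟩
  by_cases hcomp : ∀ a b : S, a ≠ b → (F.induce S).Adj a b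
  · have hk : 2 ≤ Nat.card S := by
      obtain ⟨x, y, hxy⟩ := hS.edge
      have : Nontrivial S := ⟨x, y, hxy.ne⟩
      exact Finite.one_lt_card
    refine ⟨Nat.card S, hk, fun q => ?_⟩
    have hnt : Nontrivial (Fin (Nat.card S) ⊕ Fin q) :=
      ⟨Sum.inl ⟨0, by omega⟩, Sum.inl ⟨1, by omega⟩, fun h =>
        absurd (congrArg Fin.val (Sum.inl_injective h)) (by simp)⟩
    have hemb : Nonempty (F.induce S ↪g KN (Nat.card S) q) := by
      let e : S ≃ Fin (Nat.card S) := Finite.equivFin S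
      refine ⟨⟨⟨fun a => Sum.inl (e a), fun a b hab => e.injective (Sum.inl_injective hab)⟩, ?_⟩⟩
      intro a b
      change (KN (Nat.card S) q).Adj (Sum.inl (e a)) (Sum.inl (e b)) ↔ _
      rw [SimpleGraph.sum_adj_inl, SimpleGraph.top_adj, e.injective.ne_iff]
      exact ⟨hcomp a b, fun h => h.ne⟩
    exact related_of_two hS hS F _ (Or.inl hSF) (Or.inl hemb) κ _ hκ hκ
      (KN_split hS hk fun _ => rfl) (KN_split hS hk fun _ => rfl)
  · refine ⟨Nat.card V + 1, by omega, fun q => ?_⟩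
    have hm : 2 ≤ Nat.card V + 1 := by omega
    have hnt : Nontrivial (Fin (Nat.card V + 1) ⊕ Fin q) :=
      ⟨Sum.inl ⟨0, by omega⟩, Sum.inl ⟨1, by omega⟩, by simp⟩
    refine related_of_two hS (noCut_top hm) F (KN (Nat.card V + 1) q) (Or.inl hSF)
      (Or.inr ⟨SimpleGraph.Embedding.sumInl⟩) κ _ hκ ?_
      (KN_split hS hm fun h => absurd h hcomp) (KN_split (noCut_top hm) hm fun _ => by simp)
    intro f
    exfalso
    have h := Nat.card_le_card_of_injective f f.injective
    rw [Nat.card_eq_fintype_card (α := Fin (Nat.card V + 1)), Fintype.card_fin] at h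
    omega

theorem compl_emb {m p : ℕ} (hm : 1 ≤ m) : Nonempty ((⊤ : SimpleGraph (Fin (p + 1))) ↪g
    (KN m p)ᶜ) := by
  refine ⟨⟨⟨Fin.cases (Sum.inl ⟨0, by omega⟩) Sum.inr, ?_⟩, ?_⟩⟩
  · intro a b
    refine Fin.cases ?_ (fun a => ?_) a <;> refine Fin.cases ?_ (fun b => ?_) b <;> simp
  · intro a b
    change (KN m p)ᶜ.Adj ((Fin.cases (Sum.inl ⟨0, by omega⟩) Sum.inr a : Fin m ⊕ Fin p))
      (Fin.cases (Sum.inl ⟨0, by omega⟩) Sum.inr b : Fin m ⊕ Fin p) ↔ _
    refine Fin.cases ?_ (fun a => ?_) a <;> refine Fin.cases ?_ (fun b => ?_) b <;>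
      simp [SimpleGraph.compl_adj, eq_comm]

theorem compl_split {U : Type} [Finite U] {C : SimpleGraph U} (hC : NoCut C) {m p : ℕ}
    (hcard : (∀ a b, a ≠ b → C.Adj a b) → p < Nat.card U) (f : C ↪g (KN m p)ᶜ) :
    (∃ a, f a ∉ {x : Fin m ⊕ Fin p | x.isLeft = true}) ∧
      ∃ a, f a ∈ {x : Fin m ⊕ Fin p | x.isLeft = true} := by
  obtain ⟨x, y, hxy⟩ := hC.edge
  constructor
  · have h : (KN m p)ᶜ.Adj (f x) (f y) := f.map_adj_iff.2 hxy
    rcases hx : f x with a | a
    · rcases hy : f y with b | b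
      · rw [hx, hy] at h
        simp [SimpleGraph.compl_adj] at h
      · exact ⟨y, by rw [hy]; simp⟩
    · exact ⟨x, by rw [hx]; simp⟩
  · by_contra hcon
    push Not at hcon
    have hall : ∀ a, ∃ b, f a = Sum.inr b := by
      intro a
      have h := hcon a
      rcases ha : f a with b | b
      · rw [ha] at h
        simp at h
      · exact ⟨b, rfl⟩
    choose g hg using hall
    have hginj : Function.Injective g := by
      intro a b hab
      apply f.injective
      rw [hg a, hg b, hab]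
    have h1 : ∀ a b, a ≠ b → C.Adj a b := by
      intro a b hab
      rw [← f.map_adj_iff, hg a, hg b, SimpleGraph.compl_adj, SimpleGraph.sum_adj_inr]
      refine ⟨fun h => hab (hginj (Sum.inr_injective h)), fun h => h⟩
    have h2 := hcard h1
    have h3 := Nat.card_le_card_of_injective g hginj
    rw [Nat.card_eq_fintype_card (α := Fin p), Fintype.card_fin] at h3
    omega

/-- Every connected graph is related to the complement of `K_m + N_p`, for some `p ≥ 1` and all
`m ≥ 1`. -/
theorem conn_compl {V : Type} [Finite V] [Nontrivial V] (F : SimpleGraph V) (hF : F.Connected) :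
    ∃ p : ℕ, 1 ≤ p ∧ ∀ m : ℕ, 1 ≤ m → Related F (KN m p)ᶜ := by
  obtain ⟨S, hS, κ, hκ⟩ := exists_block F hF
  have hV : 1 < Nat.card V := Finite.one_lt_card
  have hSF : Nonempty (F.induce S ↪g F) := ⟨SimpleGraph.Embedding.induce S⟩
  by_cases hcomp : ∀ a b : S, a ≠ b → (F.induce S).Adj a b
  · have hk : 2 ≤ Nat.card S := by
      obtain ⟨x, y, hxy⟩ := hS.edge
      have : Nontrivial S := ⟨x, y, hxy.ne⟩
      exact Finite.one_lt_card
    obtain ⟨p, hp⟩ : ∃ p, Nat.card S = p + 1 := ⟨Nat.card S - 1, by omega⟩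
    refine ⟨p, by omega, fun m hm => ?_⟩
    have hnt : Nontrivial (Fin m ⊕ Fin p) :=
      ⟨Sum.inl ⟨0, by omega⟩, Sum.inr ⟨0, by omega⟩, by simp⟩
    have hemb : Nonempty (F.induce S ↪g (KN m p)ᶜ) := by
      let e : S ≃ Fin (p + 1) := (Finite.equivFin S).trans (finCongr hp)
      obtain ⟨φ⟩ := compl_emb (m := m) (p := p) hm
      have e' : F.induce S ↪g (⊤ : SimpleGraph (Fin (p + 1))) := by
        refine ⟨e.toEmbedding, ?_⟩
        intro a b
        change (⊤ : SimpleGraph (Fin (p + 1))).Adj (e a) (e b) ↔ _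
        rw [SimpleGraph.top_adj, e.injective.ne_iff]
        exact ⟨hcomp a b, fun h => h.ne⟩
      exact ⟨φ.comp e'⟩
    exact related_of_two hS hS F _ (Or.inl hSF) (Or.inl hemb) κ _ hκ hκ
      (compl_split hS fun _ => by omega) (compl_split hS fun _ => by omega)
  · refine ⟨Nat.card V, by omega, fun m hm => ?_⟩
    have hm2 : 2 ≤ Nat.card V + 1 := by omega
    have hnt : Nontrivial (Fin m ⊕ Fin (Nat.card V)) :=
      ⟨Sum.inl ⟨0, by omega⟩, Sum.inr ⟨0, by omega⟩, by simp⟩
    refine related_of_two hS (noCut_top hm2) F (KN m (Nat.card V))ᶜ (Or.inl hSF)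
      (Or.inr (compl_emb hm)) κ _ hκ ?_
      (compl_split hS fun h => absurd h hcomp) (compl_split (noCut_top hm2) fun _ => by simp)
    intro f
    exfalso
    have h := Nat.card_le_card_of_injective f f.injective
    rw [Nat.card_eq_fintype_card (α := Fin (Nat.card V + 1)), Fintype.card_fin] at h
    omega

/-- the common neighbour -/
theorem exists_mid {V W : Type} [Finite V] [Nontrivial V] [Finite W] [Nontrivial W]
    (F : SimpleGraph V) (G : SimpleGraph W) :
    ∃ (X : Type) (_ : Finite X) (_ : Nontrivial X) (H : SimpleGraph X),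
      Related F H ∧ Related H G := by
  rcases F.connected_or_connected_compl with hF | hF <;>
    rcases G.connected_or_connected_compl with hG | hG
  · have hV : 1 < Nat.card V := Finite.one_lt_card
    refine ⟨Fin (Nat.card V + Nat.card W + 1) ⊕ Fin (Nat.card V + Nat.card W + 1), inferInstance,
      ⟨Sum.inl ⟨0, by omega⟩, Sum.inr ⟨0, by omega⟩, by simp⟩, _,
      conn_bip F hF _ (by omega), related_symm (conn_bip G hG _ (by omega))⟩
  · obtain ⟨m, hm, h1⟩ := conn_KN F hF
    obtain ⟨p, hp, h2⟩ := conn_compl Gᶜ hG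
    refine ⟨Fin m ⊕ Fin p, inferInstance,
      ⟨Sum.inl ⟨0, by omega⟩, Sum.inr ⟨0, by omega⟩, by simp⟩, KN m p, h1 p, ?_⟩
    have h3 := related_compl (h2 m (by omega))
    rw [compl_compl, compl_compl] at h3
    exact related_symm h3
  · obtain ⟨m, hm, h1⟩ := conn_KN G hG
    obtain ⟨p, hp, h2⟩ := conn_compl Fᶜ hF
    refine ⟨Fin m ⊕ Fin p, inferInstance,
      ⟨Sum.inl ⟨0, by omega⟩, Sum.inr ⟨0, by omega⟩, by simp⟩, KN m p, ?_, related_symm (h1 p)⟩
    have h3 := related_compl (h2 m (by omega))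
    rw [compl_compl, compl_compl] at h3
    exact h3
  · have hV : 1 < Nat.card V := Finite.one_lt_card
    have h1 := related_compl (conn_bip Fᶜ hF (Nat.card V + Nat.card W + 1) (by omega))
    have h2 := related_compl (conn_bip Gᶜ hG (Nat.card V + Nat.card W + 1) (by omega))
    rw [compl_compl] at h1 h2
    exact ⟨Fin (Nat.card V + Nat.card W + 1) ⊕ Fin (Nat.card V + Nat.card W + 1), inferInstance,
      ⟨Sum.inl ⟨0, by omega⟩, Sum.inr ⟨0, by omega⟩, by simp⟩, _, h1, related_symm h2⟩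

theorem related_iso {U V : Type} {X : Type} {F : SimpleGraph U} {G : SimpleGraph V}
    {H : SimpleGraph X} (e : F ≃g G) (h : Related F H) : Related G H := by
  intro n hn
  obtain ⟨W, hW, K, h1, h2⟩ := h n hn
  exact ⟨W, hW, K, number_iso e h1, h2⟩

theorem exists_copy {V : Type} [Finite V] [Nontrivial V] (F : SimpleGraph V) :
    ∃ A : FinGraph, Nonempty (F ≃g A.graph) := by
  refine ⟨⟨Nat.card V, Finite.one_lt_card, F.comap (Finite.equivFin V).symm⟩,
    ⟨⟨Finite.equivFin V, ?_⟩⟩⟩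
  intro a b
  change F.Adj ((Finite.equivFin V).symm (Finite.equivFin V a))
    ((Finite.equivFin V).symm (Finite.equivFin V b)) ↔ F.Adj a b
  rw [Equiv.symm_apply_apply, Equiv.symm_apply_apply]

/-- **The chromatic distance between any two finite graphs with at least two vertices is at most
two**: for all such graphs `F` and `G` there is a finite graph `H` with at least two vertices and
`F ≍ H ≍ G`. -/
theorem result {V W : Type} [Finite V] [Nontrivial V] [Finite W] [Nontrivial W]
    (F : SimpleGraph V) (G : SimpleGraph W) :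
    chromaticDistance F G ≤ 2 ∧ ∃ H : FinGraph, Related F H.graph ∧ Related H.graph G := by
  obtain ⟨X, _, _, H, h1, h2⟩ := exists_mid F G
  obtain ⟨A, ⟨eA⟩⟩ := exists_copy F
  obtain ⟨B, ⟨eB⟩⟩ := exists_copy H
  obtain ⟨C, ⟨eC⟩⟩ := exists_copy G
  have h3 : Related F B.graph := related_symm (related_iso eB (related_symm h1))
  have h4 : Related B.graph G := related_iso eB h2
  refine ⟨?_, B, h3, h4⟩
  apply sInf_le
  refine ⟨2, rfl, fun i => match i with
    | 0 => A
    | 1 => B
    | _ => C, ⟨eA⟩, ⟨eC.symm⟩, ?_⟩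
  intro i hi
  have h5 : i = 0 ∨ i = 1 := by omega
  rcases h5 with rfl | rfl
  · exact related_iso eA h3
  · exact related_symm (related_iso eC (related_symm h4))

end Pool.Agent.Results.MP_37c966_co.DistanceTwo
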